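import Mathlib

/-! # A finitely generated residually finite monoid whose partial inner automorphism monoid is not residually finite -/

namespace Pool.Agent.Results.MP_c9edc3_al.InnNotResiduallyFinite

/-- A semigroup `M` is residually finite: any two distinct elements are separated by a homomorphism to a finite
semigroup. -/
def ResiduallyFinite (M : Type) [Semigroup M] : Prop :=
  ∀ x y : M, x ≠ y → ∃ (F : Type) (_ : Semigroup F) (_ : Finite F) (f : M →ₙ* F), f x ≠ f y

/-- The symmetric inverse monoid of a type `S`: all partial bijections of `S`, with `f * g` = first `f`, then `g`. -/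
def SymInv (S : Type) : Type := S ≃. S

instance (S : Type) : Monoid (SymInv S) where
  mul f g := PEquiv.trans f g
  one := PEquiv.refl S
  mul_assoc f g h := PEquiv.trans_assoc f g h
  one_mul f := PEquiv.refl_trans f
  mul_one f := PEquiv.trans_refl f

/-- The partial bijection `φ_{g,h}` of a monoid `S`: it is defined on the elements `a` with `gh a = a = a gh`
and sends `a` to `h a g`; its inverse is `φ_{h,g}`. -/
noncomputable def phi {S : Type} [Monoid S] (g h : S) : SymInv S := by
  classical
  exact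
  { toFun := fun a => if g * h * a = a ∧ a * (g * h) = a then some (h * a * g) else none
    invFun := fun a => if h * g * a = a ∧ a * (h * g) = a then some (g * a * h) else none
    inv := by
      have key : ∀ (g h a b : S), (g * h * a = a ∧ a * (g * h) = a) → h * a * g = b →
          ((h * g * b = b ∧ b * (h * g) = b) ∧ g * b * h = a) := by
        intro g h a b h1 h2
        subst h2
        obtain ⟨h1, h2⟩ := h1
        have e1 : h * (g * (h * (a * g))) = h * (a * g) := by
          have : g * (h * (a * g)) = a * g := by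
            rw [← mul_assoc, ← mul_assoc, h1]
          rw [this]
        have e2 : a * (g * (h * g)) = a * g := by
          rw [← mul_assoc g h g, ← mul_assoc a (g * h) g, h2]
        refine ⟨⟨?_, ?_⟩, ?_⟩
        · simpa [mul_assoc] using e1
        · simp only [mul_assoc]; rw [e2]
        · have : g * (h * (a * (g * h))) = a := by rw [h2, ← mul_assoc, h1]
          simpa [mul_assoc] using this
      intro a b
      constructor
      · intro hb
        by_cases hc : h * g * b = b ∧ b * (h * g) = b
        · rw [if_pos hc] at hb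
          have hab : g * b * h = a := by simpa using hb
          obtain ⟨k1, k2⟩ := key h g b a hc hab
          rw [if_pos k1, k2]
        · rw [if_neg hc] at hb; simp at hb
      · intro hb
        by_cases hc : g * h * a = a ∧ a * (g * h) = a
        · rw [if_pos hc] at hb
          have hab : h * a * g = b := by simpa using hb
          obtain ⟨k1, k2⟩ := key g h a b hc hab
          rw [if_pos k1, k2]
        · rw [if_neg hc] at hb; simp at hb }

/-- The partial inner automorphism monoid of a monoid `S` (for which `S¹ = S`): the submonoid of the symmetric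
inverse monoid of `S` generated by all `φ_{g,h}`. -/
def Inn (S : Type) [Monoid S] : Submonoid (SymInv S) :=
  Submonoid.closure {f | ∃ g h : S, f = phi g h}

/-! ## The example -/

inductive T (R : Type) : Type
  | g (ε : ℤˣ) (c : R) : T R
  | p (n : R) : T R
  | z : T R

namespace T
variable {R : Type} [CommRing R]

def mulT : T R → T R → T R
  | g ε c, g ε' c' => g (ε * ε') (((ε : ℤ) : R) * c' + c)
  | g ε c, p n => p (((ε : ℤ) : R) * n + c)
  | g _ _, z => z
  | p n, g _ _ => p n
  | p _, p _ => z
  | p _, z => z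
  | z, _ => z

instance : Mul (T R) := ⟨mulT⟩

theorem gg (ε ε' : ℤˣ) (c c' : R) : (g ε c * g ε' c' : T R) = g (ε * ε') (((ε : ℤ) : R) * c' + c) := rfl
theorem gp (ε : ℤˣ) (c n : R) : (g ε c * p n : T R) = p (((ε : ℤ) : R) * n + c) := rfl
theorem gz (ε : ℤˣ) (c : R) : (g ε c * z : T R) = z := rfl
theorem pg (ε : ℤˣ) (c n : R) : (p n * g ε c : T R) = p n := rfl
theorem pp (n m : R) : (p n * p m : T R) = z := rfl
theorem pz (n : R) : (p n * z : T R) = z := rfl
theorem zx (x : T R) : (z * x : T R) = z := rfl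

instance : Monoid (T R) where
  mul_assoc x y w := by
    rcases x with ⟨a, b⟩ | n | _ <;> rcases y with ⟨a', b'⟩ | n' | _ <;> rcases w with ⟨a'', b''⟩ | n'' | _ <;>
      simp only [gg, gp, gz, pg, pp, pz, zx]
    · congr 1
      · rw [mul_assoc]
      · push_cast; ring
    · congr 1
      push_cast; ring
  one := g 1 0
  one_mul x := by
    change g 1 0 * x = x
    rcases x with ⟨a, b⟩ | n | _
    · rw [gg]; simp
    · rw [gp]; simp
    · rfl
  mul_one x := by
    change x * g 1 0 = x
    rcases x with ⟨a, b⟩ | n | _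
    · rw [gg]; simp
    · rfl
    · rfl

theorem one_def : (1 : T R) = g 1 0 := rfl

instance [Finite R] : Finite (T R) := by
  let f : T R → (ℤˣ × R) ⊕ R ⊕ Unit := fun x => match x with
    | g ε c => Sum.inl (ε, c)
    | p n => Sum.inr (Sum.inl n)
    | z => Sum.inr (Sum.inr ())
  refine Finite.of_injective f ?_
  intro x y h
  rcases x with ⟨a, b⟩ | n | _ <;> rcases y with ⟨a', b'⟩ | n' | _ <;> simp [f] at h ⊢
  · exact h
  · exact h

/-- reduction modulo `m` -/
def red (m : ℕ) : T ℤ →ₙ* T (ZMod m) where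
  toFun x := match x with
    | g ε c => g ε (c : ZMod m)
    | p n => p (n : ZMod m)
    | z => z
  map_mul' x y := by
    rcases x with ⟨a, b⟩ | n | _ <;> rcases y with ⟨a', b'⟩ | n' | _ <;>
      simp only [gg, gp, gz, pg, pp, pz, zx] <;> push_cast <;> rfl

theorem red_g (m : ℕ) (ε : ℤˣ) (c : ℤ) : red m (g ε c) = g ε (c : ZMod m) := rfl
theorem red_p (m : ℕ) (c : ℤ) : red m (p c) = p (c : ZMod m) := rfl
theorem red_z (m : ℕ) : red m z = z := rfl

theorem sep (a b : ℤ) (h : a ≠ b) : ∃ m : ℕ, m ≠ 0 ∧ (a : ZMod m) ≠ (b : ZMod m) := by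
  refine ⟨(b - a).natAbs + 1, by omega, ?_⟩
  intro hc
  rw [ZMod.intCast_eq_intCast_iff_dvd_sub] at hc
  have h1 := Int.natAbs_dvd_natAbs.2 hc
  have h2 : (b - a).natAbs ≠ 0 := by
    rw [Int.natAbs_ne_zero]; omega
  have h3 := Nat.le_of_dvd (Nat.pos_of_ne_zero h2) h1
  rw [Int.natAbs_natCast] at h3
  omega

theorem resFin : ResiduallyFinite (T ℤ) := by
  have main : ∀ (m : ℕ), m ≠ 0 → ∀ x y : T ℤ, red m x ≠ red m y →
      ∃ (F : Type) (_ : Semigroup F) (_ : Finite F) (f : T ℤ →ₙ* F), f x ≠ f y := by
    intro m hm x y h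
    have : NeZero m := ⟨hm⟩
    exact ⟨T (ZMod m), inferInstance, inferInstance, red m, h⟩
  intro x y h
  rcases x with ⟨a, b⟩ | n | _ <;> rcases y with ⟨a', b'⟩ | n' | _
  · by_cases hb : b = b'
    · refine main 1 one_ne_zero _ _ ?_
      rw [red_g, red_g]
      intro hc
      injection hc with h1 h2
      exact h (by rw [h1, hb])
    · obtain ⟨m, hm, hs⟩ := sep b b' hb
      refine main m hm _ _ ?_
      rw [red_g, red_g]
      intro hc
      injection hc with h1 h2
      exact hs h2
  · refine main 1 one_ne_zero _ _ ?_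
    rw [red_g, red_p]; intro hc; cases hc
  · refine main 1 one_ne_zero _ _ ?_
    rw [red_g, red_z]; intro hc; cases hc
  · refine main 1 one_ne_zero _ _ ?_
    rw [red_g, red_p]; intro hc; cases hc
  · have hb : n ≠ n' := fun hc => h (by rw [hc])
    obtain ⟨m, hm, hs⟩ := sep n n' hb
    refine main m hm _ _ ?_
    rw [red_p, red_p]
    intro hc
    injection hc with h1
    exact hs h1
  · refine main 1 one_ne_zero _ _ ?_
    rw [red_p, red_z]; intro hc; cases hc
  · refine main 1 one_ne_zero _ _ ?_
    rw [red_g, red_z]; intro hc; cases hc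
  · refine main 1 one_ne_zero _ _ ?_
    rw [red_p, red_z]; intro hc; cases hc
  · exact absurd rfl h

theorem fg : ∃ A : Finset (T ℤ), Subsemigroup.closure (A : Set (T ℤ)) = ⊤ := by
  classical
  refine ⟨{g 1 1, g 1 (-1), g (-1) 0, p 0}, ?_⟩
  set C := Subsemigroup.closure ((({g 1 1, g 1 (-1), g (-1) 0, p 0} : Finset (T ℤ)) : Set (T ℤ))) with hC
  have h1 : g 1 1 ∈ C := Subsemigroup.subset_closure (by simp)
  have h2 : g 1 (-1) ∈ C := Subsemigroup.subset_closure (by simp)
  have h3 : g (-1) 0 ∈ C := Subsemigroup.subset_closure (by simp)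
  have h4 : p 0 ∈ C := Subsemigroup.subset_closure (by simp)
  have h0 : g 1 (0 : ℤ) ∈ C := by
    have := C.mul_mem h1 h2
    simpa [gg] using this
  have hn : ∀ n : ℤ, g 1 n ∈ C := by
    intro n
    induction n using Int.induction_on with
    | zero => exact h0
    | succ k ih =>
      have := C.mul_mem h1 ih
      simpa [gg] using this
    | pred k ih =>
      have := C.mul_mem h2 ih
      rw [gg] at this
      have e : ((((1 : ℤˣ) : ℤ) : ℤ) * (-(k : ℤ)) + -1) = -(k : ℤ) - 1 := by simp; ring
      simpa [e, sub_eq_add_neg] using this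
  have hz : z ∈ C := by
    have := C.mul_mem h4 h4
    simpa [pp] using this
  rw [eq_top_iff]
  intro x _
  rcases x with ⟨a, b⟩ | n | _
  · rcases Int.units_eq_one_or a with rfl | rfl
    · exact hn b
    · have := C.mul_mem (hn b) h3
      simpa [gg] using this
  · have := C.mul_mem (hn n) h4
    simpa [gp] using this
  · exact hz

end T

open T

theorem mul_ap {S : Type} (f g : SymInv S) (a : S) :
    PEquiv.toFun (f * g : SymInv S) a = (PEquiv.toFun f a).bind (PEquiv.toFun g) := rfl

theorem one_ap {S : Type} (a : S) : PEquiv.toFun (1 : SymInv S) a = some a := rfl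

theorem ext' {S : Type} (f g : SymInv S) (h : ∀ a, PEquiv.toFun f a = PEquiv.toFun g a) : f = g :=
  PEquiv.ext h

theorem phi_ap_pos {S : Type} [Monoid S] (g h a : S) (H : g * h * a = a ∧ a * (g * h) = a) :
    PEquiv.toFun (phi g h) a = some (h * a * g) := by
  classical
  exact if_pos H

theorem phi_ap_neg {S : Type} [Monoid S] (g h a : S) (H : ¬ (g * h * a = a ∧ a * (g * h) = a)) :
    PEquiv.toFun (phi g h) a = none := by
  classical
  exact if_neg H

/-- the idempotent with domain `{p 0, z}` -/
noncomputable def e : SymInv (T ℤ) := phi (g (-1) 0) 1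
/-- conjugation by a translation -/
noncomputable def c (n : ℤ) : SymInv (T ℤ) := phi (g 1 (-n)) (g 1 n)

theorem e_g (ε : ℤˣ) (b : ℤ) : PEquiv.toFun e (g ε b) = none := by
  refine phi_ap_neg _ _ _ ?_
  rintro ⟨h, -⟩
  rw [mul_one, gg] at h
  injection h with h1 h2
  rcases Int.units_eq_one_or ε with rfl | rfl
  · revert h1; decide
  · revert h1; decide

theorem e_p0 : PEquiv.toFun e (p 0) = some (p 0) := by
  refine (phi_ap_pos _ _ _ ?_).trans ?_
  · rw [mul_one, gp, pg]; simp
  · rw [one_mul, pg]

theorem e_pn (n : ℤ) (hn : n ≠ 0) : PEquiv.toFun e (p n) = none := by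
  refine phi_ap_neg _ _ _ ?_
  rintro ⟨h, -⟩
  rw [mul_one, gp] at h
  injection h with h1
  simp at h1
  omega

theorem e_z : PEquiv.toFun e z = some z := by
  refine (phi_ap_pos _ _ _ ?_).trans ?_
  · rw [mul_one, gz, zx]; simp
  · rw [one_mul, zx]

theorem tt (n : ℤ) : (g 1 (-n) * g 1 n : T ℤ) = 1 := by
  rw [gg, one_def]; simp

theorem c_ap (n : ℤ) (a : T ℤ) : PEquiv.toFun (c n) a = some (g 1 n * a * g 1 (-n)) := by
  refine phi_ap_pos _ _ _ ?_
  rw [tt]; simp

theorem c_mul (m n : ℤ) : c m * c n = c (m + n) := by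
  refine ext' _ _ fun a => ?_
  rw [mul_ap, c_ap, c_ap]
  change PEquiv.toFun (c n) _ = _
  rw [c_ap]
  congr 1
  have h1 : (g 1 (m + n) : T ℤ) = g 1 n * g 1 m := by rw [gg]; simp
  have h2 : (g 1 (-(m + n)) : T ℤ) = g 1 (-m) * g 1 (-n) := by
    rw [gg]; simp
  rw [h1, h2]
  simp only [mul_assoc]

theorem c_zero : c 0 = 1 := by
  refine ext' _ _ fun a => ?_
  rw [c_ap, one_ap]
  congr 1
  have : (g 1 0 : T ℤ) = 1 := rfl
  rw [neg_zero, this]; simp

theorem ee : e * e = e := by
  refine ext' _ _ fun a => ?_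
  rw [mul_ap]
  rcases a with ⟨ε, b⟩ | n | _
  · rw [e_g]; rfl
  · by_cases hn : n = 0
    · subst hn; rw [e_p0]; exact e_p0
    · rw [e_pn n hn]; rfl
  · rw [e_z]; exact e_z

theorem key (n : ℤ) (hn : n ≠ 0) (a : T ℤ) :
    PEquiv.toFun (e * c n * e * c (-n)) a = (PEquiv.toFun (e * c 1 * e * c (-1)) a) := by
  have main : ∀ n : ℤ, n ≠ 0 → ∀ a : T ℤ,
      PEquiv.toFun (e * c n * e * c (-n)) a = (match a with | z => some z | _ => none) := by
    intro n hn a
    rw [mul_ap, mul_ap, mul_ap]
    rcases a with ⟨ε, b⟩ | k | _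
    · rw [e_g]; rfl
    · by_cases hk : k = 0
      · subst hk
        rw [e_p0]
        have h1 : PEquiv.toFun (c n) (p 0) = some (p n) := by
          rw [c_ap, gp, pg]; simp
        change (((PEquiv.toFun (c n) (p 0)).bind (PEquiv.toFun e)).bind _) = _
        rw [h1]
        change ((PEquiv.toFun e (p n)).bind _) = _
        rw [e_pn n hn]
        rfl
      · rw [e_pn k hk]; rfl
    · have h1 : ∀ m : ℤ, PEquiv.toFun (c m) z = some z := by
        intro m
        rw [c_ap, gz, zx]
      rw [e_z]
      change (((PEquiv.toFun (c n) z).bind (PEquiv.toFun e)).bind _) = _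
      rw [h1]
      change ((PEquiv.toFun e z).bind _) = _
      rw [e_z]
      exact h1 _
  rw [main n hn, main 1 one_ne_zero]

theorem key_p0 : PEquiv.toFun (e * c 1 * e * c (-1)) (p 0) = none := by
  rw [mul_ap, mul_ap, mul_ap, e_p0]
  have h1 : PEquiv.toFun (c 1) (p 0) = some (p 1) := by
    rw [c_ap, gp, pg]; simp
  change (((PEquiv.toFun (c 1) (p 0)).bind (PEquiv.toFun e)).bind _) = _
  rw [h1]
  change ((PEquiv.toFun e (p 1)).bind _) = _
  rw [e_pn 1 one_ne_zero]
  rfl

theorem e_mem : e ∈ Inn (T ℤ) := Submonoid.subset_closure ⟨_, _, rfl⟩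
theorem c_mem (n : ℤ) : c n ∈ Inn (T ℤ) := Submonoid.subset_closure ⟨_, _, rfl⟩

theorem not_resFin : ¬ ResiduallyFinite (Inn (T ℤ)) := by
  intro hR
  let E : Inn (T ℤ) := ⟨e, e_mem⟩
  let C : ℤ → Inn (T ℤ) := fun n => ⟨c n, c_mem n⟩
  have hC : ∀ m n, C m * C n = C (m + n) := fun m n => Subtype.ext (c_mul m n)
  have hC0 : C 0 = 1 := Subtype.ext c_zero
  have hE : E * E = E := Subtype.ext ee
  have hkey : ∀ n : ℤ, n ≠ 0 → E * C n * E * C (-n) = E * C 1 * E * C (-1) := by
    intro n hn
    exact Subtype.ext (ext' _ _ (key n hn))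
  have hne : E ≠ E * C 1 * E * C (-1) := by
    intro h
    have h1 : e = e * c 1 * e * c (-1) := congrArg Subtype.val h
    have h2 := key_p0
    rw [← h1, e_p0] at h2
    cases h2
  obtain ⟨F, hF1, hF2, f, hf⟩ := hR _ _ hne
  apply hf
  obtain ⟨m, n, hmn, hfmn⟩ := Finite.exists_ne_map_eq_of_infinite (fun n : ℤ => f (C n))
  have hfmn : f (C m) = f (C n) := hfmn
  have h1 : f (C (m - n)) = f (C 0) := by
    have : f (C m * C (-n)) = f (C n * C (-n)) := by rw [map_mul, map_mul, hfmn]
    rw [hC, hC] at this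
    rw [sub_eq_add_neg, this]; congr 2; ring
  have h2 : f (C (-(m - n))) = f (C 0) := by
    have : f (C n * C (-m)) = f (C m * C (-m)) := by rw [map_mul, map_mul, hfmn]
    rw [hC, hC] at this
    have e1 : -(m - n) = n + -m := by ring
    have e2 : m + -m = 0 := by ring
    rw [e1, this, e2]
  rw [← hkey (m - n) (sub_ne_zero.2 hmn)]
  rw [map_mul, map_mul, map_mul, h1, h2, ← map_mul, ← map_mul, ← map_mul, hC0]
  simp [hE]

/-- There is a finitely generated residually finite monoid `S` whose partial inner automorphism monoid is not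
residually finite. -/
theorem result : ∃ (S : Type) (_ : Monoid S),
    (∃ A : Finset S, Subsemigroup.closure (A : Set S) = ⊤) ∧ ResiduallyFinite S ∧ ¬ ResiduallyFinite (Inn S) :=
  ⟨T ℤ, inferInstance, T.fg, T.resFin, not_resFin⟩

end Pool.Agent.Results.MP_c9edc3_al.InnNotResiduallyFinite
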